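import Mathlib

/-! # Walks through clique fibres: the combinatorial core for exponential graphs of `C_{2d+1}[K_m]`

`Sys X R N m n` is the abstract structure of a family `X` of maps with values in `{0, …, n-1}` on
fibres `0, …, N` (arranged in a cycle) of size `m`, with a relation `R` (adjacency in `K_n^G`).
`Sys.exists_colouring` gives an `n`-colouring if `n = 2m+k`, `(N-1)k ≤ m+1`, `N = 2d ≥ 4`, `k ≥ 1`.
-/

namespace Pool.Agent.K6.H97.Tardif

/-! ## Elimination of the positions of a clique -/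

/-- Eliminate the `m` positions of a clique with colours `a 0, …, a (m-1)`: the colour `c`, which is
none of the `a i`, is transported to a colour outside `{off, …, off+m-1}`. -/
def kap : ℕ → ℕ → (ℕ → ℕ) → ℕ → ℕ
  | 0, _, _, c => c
  | (m + 1), off, a, c =>
      kap m (off + 1) (fun i => Equiv.swap off (a 0) (a (i + 1))) (Equiv.swap off (a 0) c)

theorem swap_range {off p n v : ℕ} (hp : off ≤ p) (hpn : p < n) (hv : off ≤ v) (hvn : v < n)
    (hne : v ≠ p) : off + 1 ≤ Equiv.swap off p v ∧ Equiv.swap off p v < n := by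
  rcases eq_or_ne v off with h | h
  · subst h
    rw [Equiv.swap_apply_left]
    omega
  · rw [Equiv.swap_apply_of_ne_of_ne h hne]
    omega

theorem kap_range : ∀ (m off n : ℕ) (a : ℕ → ℕ) (c : ℕ),
    (∀ i < m, off ≤ a i ∧ a i < n) → off ≤ c → c < n →
    (∀ i < m, ∀ j < m, i ≠ j → a i ≠ a j) → (∀ i < m, a i ≠ c) →
    off + m ≤ kap m off a c ∧ kap m off a c < n
  | 0, off, n, a, c, _, hc, hcn, _, _ => by simpa [kap] using ⟨hc, hcn⟩
  | m + 1, off, n, a, c, ha, hc, hcn, hinj, hne => by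
    have h0 := ha 0 (by omega)
    have hc1 := swap_range h0.1 h0.2 hc hcn (hne 0 (by omega)).symm
    have := kap_range m (off + 1) n (fun i => Equiv.swap off (a 0) (a (i + 1)))
      (Equiv.swap off (a 0) c)
      (fun i hi => swap_range h0.1 h0.2 (ha (i + 1) (by omega)).1 (ha (i + 1) (by omega)).2
        (hinj (i + 1) (by omega) 0 (by omega) (by omega)))
      hc1.1 hc1.2
      (fun i hi j hj hij h => hinj (i + 1) (by omega) (j + 1) (by omega) (by omega)
        ((Equiv.swap off (a 0)).injective h))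
      (fun i hi h => hne (i + 1) (by omega) ((Equiv.swap off (a 0)).injective h))
    rw [kap]
    exact ⟨by omega, this.2⟩

theorem swap_ne {off p q u v : ℕ} (h : u ≠ v) (hup : u ≠ p) (huq : u ≠ q) (hvp : v ≠ p)
    (hvq : v ≠ q) : Equiv.swap off p u ≠ Equiv.swap off q v := by
  rcases eq_or_ne u off with hu | hu
  · rcases eq_or_ne v off with hv | hv
    · exact absurd (hu.trans hv.symm) h
    · subst hu
      rw [Equiv.swap_apply_left, Equiv.swap_apply_of_ne_of_ne hv hvq]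
      exact hvp.symm
  · rcases eq_or_ne v off with hv | hv
    · subst hv
      rw [Equiv.swap_apply_left, Equiv.swap_apply_of_ne_of_ne hu hup]
      exact huq
    · rw [Equiv.swap_apply_of_ne_of_ne hu hup, Equiv.swap_apply_of_ne_of_ne hv hvq]
      exact h

theorem kap_ne : ∀ (m off : ℕ) (a a' : ℕ → ℕ) (c c' : ℕ),
    (∀ i < m, ∀ j < m, i ≠ j → a i ≠ a j) → (∀ i < m, ∀ j < m, i ≠ j → a' i ≠ a' j) →
    (∀ i < m, ∀ j < m, i ≠ j → a i ≠ a' j) →
    (∀ i < m, a i ≠ c) → (∀ i < m, a' i ≠ c) → (∀ i < m, a i ≠ c') → (∀ i < m, a' i ≠ c') →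
    c ≠ c' → kap m off a c ≠ kap m off a' c'
  | 0, off, a, a', c, c', _, _, _, _, _, _, _, h => by simpa [kap] using h
  | m + 1, off, a, a', c, c', hi1, hi2, hx, h1, h2, h3, h4, h => by
    rw [kap, kap]
    have e0 : (0 : ℕ) < m + 1 := by omega
    refine kap_ne m (off + 1) _ _ _ _ ?_ ?_ ?_ ?_ ?_ ?_ ?_ ?_
    · intro i hi j hj hij he
      exact hi1 (i + 1) (by omega) (j + 1) (by omega) (by omega) ((Equiv.swap off (a 0)).injective he)
    · intro i hi j hj hij he
      exact hi2 (i + 1) (by omega) (j + 1) (by omega) (by omega)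
        ((Equiv.swap off (a' 0)).injective he)
    · intro i hi j hj hij
      exact swap_ne (hx (i + 1) (by omega) (j + 1) (by omega) (by omega))
        (hi1 (i + 1) (by omega) 0 e0 (by omega)) (hx (i + 1) (by omega) 0 e0 (by omega))
        (hx 0 e0 (j + 1) (by omega) (by omega)).symm (hi2 (j + 1) (by omega) 0 e0 (by omega))
    · intro i hi he
      exact h1 (i + 1) (by omega) ((Equiv.swap off (a 0)).injective he)
    · intro i hi
      exact swap_ne (h2 (i + 1) (by omega)) (hi2 (i + 1) (by omega) 0 e0 (by omega))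
        (hx 0 e0 (i + 1) (by omega) (by omega)).symm (h2 0 e0).symm (h1 0 e0).symm
    · intro i hi
      exact swap_ne (h3 (i + 1) (by omega)) (hi1 (i + 1) (by omega) 0 e0 (by omega))
        (hx (i + 1) (by omega) 0 e0 (by omega)) (h3 0 e0).symm (h4 0 e0).symm
    · intro i hi he
      exact h4 (i + 1) (by omega) ((Equiv.swap off (a' 0)).injective he)
    · exact swap_ne h (h1 0 e0).symm (h2 0 e0).symm (h3 0 e0).symm (h4 0 e0).symm

/-! ## The abstract system -/

/-- Fibres `i` and `j` are equal or neighbours on the cycle `0, …, N`. -/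
def nb (N i j : ℕ) : Prop :=
  i ≤ N ∧ j ≤ N ∧ (i = j ∨ j = i + 1 ∨ i = j + 1 ∨ (i = N ∧ j = 0) ∨ (i = 0 ∧ j = N))

/-- See the module docstring. -/
structure Sys (X : Type*) (R : X → X → Prop) (N m n : ℕ) where
  /-- the colours -/
  a : X → ℕ → ℕ → ℕ
  /-- a colour of a monochromatic edge touching the fibre, if there is one -/
  st : X → ℕ → Option ℕ
  symm : ∀ φ ψ, R φ ψ → R ψ φ
  a_lt : ∀ φ i x, i ≤ N → x < m → a φ i x < n
  cross : ∀ φ ψ, R φ ψ → ∀ i j, nb N i j → ∀ x < m, ∀ y < m, (i ≠ j ∨ x ≠ y) → a φ i x ≠ a ψ j y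
  noneP : ∀ φ i, st φ i = none → ∀ j, nb N i j → ∀ x < m, ∀ y < m, (i ≠ j ∨ x ≠ y) →
    a φ i x ≠ a φ j y
  some_mem : ∀ φ i e, i ≤ N → st φ i = some e → ∃ x < m, a φ i x = e
  someP : ∀ φ ψ, R φ ψ → ∀ i e, st φ i = some e → ∀ j, nb N i j → ∀ y < m, a ψ j y ≠ e
  ex : ∀ φ, ∃ i, i ≤ N ∧ st φ i ≠ none

namespace Sys

variable {X : Type*} {R : X → X → Prop} {N m n : ℕ} (S : Sys X R N m n) (k : ℕ)

/-- The walk through the fibres `i+1, i, …, 1`. -/
def W (φ : X) : ℕ → ℕ → ℕ
  | 0, c => kap m 0 (S.a φ 1) c - m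
  | (i + 1), c =>
      if kap m 0 (S.a φ (i + 2)) c < 2 * m then
        W φ i (S.a φ (i + 2) (kap m 0 (S.a φ (i + 2)) c - m))
      else (m + k) + i * k + (kap m 0 (S.a φ (i + 2)) c - 2 * m)

variable {S k}

theorem kap_rng {φ : X} {i c : ℕ} (hi : i ≤ N) (hst : S.st φ i = none) (hc : c < n)
    (hne : ∀ x < m, S.a φ i x ≠ c) : m ≤ kap m 0 (S.a φ i) c ∧ kap m 0 (S.a φ i) c < n := by
  have := kap_range m 0 n (S.a φ i) c (fun x hx => ⟨Nat.zero_le _, S.a_lt φ i x hi hx⟩)
    (Nat.zero_le _) hc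
    (fun x hx y hy hxy => S.noneP φ i hst i (by unfold nb; omega) x hx y hy (Or.inr hxy)) hne
  simpa using this

theorem kap_neq {φ ψ : X} (hR : R φ ψ) {i c c' : ℕ} (hi : i ≤ N) (hφ : S.st φ i = none)
    (hψ : S.st ψ i = none) (h1 : ∀ x < m, S.a φ i x ≠ c) (h2 : ∀ x < m, S.a ψ i x ≠ c)
    (h3 : ∀ x < m, S.a φ i x ≠ c') (h4 : ∀ x < m, S.a ψ i x ≠ c') (h : c ≠ c') :
    kap m 0 (S.a φ i) c ≠ kap m 0 (S.a ψ i) c' :=
  kap_ne m 0 _ _ _ _
    (fun x hx y hy hxy => S.noneP φ i hφ i (by unfold nb; omega) x hx y hy (Or.inr hxy))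
    (fun x hx y hy hxy => S.noneP ψ i hψ i (by unfold nb; omega) x hx y hy (Or.inr hxy))
    (fun x hx y hy hxy => S.cross φ ψ hR i i (by unfold nb; omega) x hx y hy (Or.inr hxy))
    h1 h2 h3 h4 h

theorem W_lt {φ : X} (hn : n = 2 * m + k) : ∀ (i c : ℕ), i + 1 ≤ N →
    (∀ j, 1 ≤ j → j ≤ i + 1 → S.st φ j = none) → c < n → (∀ x < m, S.a φ (i + 1) x ≠ c) →
    S.W k φ i c < m + k + i * k
  | 0, c, hi, hst, hc, hne => by
    have := kap_rng (S := S) hi (hst 1 (by omega) (by omega)) hc hne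
    simp only [W]
    simp only [Nat.zero_add] at this
    omega
  | i + 1, c, hi, hst, hc, hne => by
    have hr := kap_rng (S := S) hi (hst (i + 2) (by omega) (by omega)) hc hne
    rw [W]
    split_ifs with h
    · have := W_lt hn i (S.a φ (i + 2) (kap m 0 (S.a φ (i + 2)) c - m)) (by omega)
        (fun j h1 h2 => hst j h1 (by omega)) (S.a_lt φ _ _ (by omega) (by omega))
        (fun x hx => S.noneP φ (i + 1) (hst (i + 1) (by omega) (by omega)) (i + 2)
          (by unfold nb; omega) x hx _ (by omega) (Or.inl (by omega)))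
      have : i * k ≤ (i + 1) * k := Nat.mul_le_mul_right k (by omega)
      omega
    · have h2 : (i + 1) * k = i * k + k := by ring
      have h3 : kap m 0 (S.a φ (i + 1 + 1)) c < n := hr.2
      have h4 : kap m 0 (S.a φ (i + 2)) c < n := h3
      omega

theorem W_ne (hn : n = 2 * m + k) {φ ψ : X} (hR : R φ ψ) : ∀ (i c c' : ℕ), i + 1 ≤ N →
    (∀ j, 1 ≤ j → j ≤ i + 1 → S.st φ j = none) → (∀ j, 1 ≤ j → j ≤ i + 1 → S.st ψ j = none) →
    c < n → c' < n →
    (∀ x < m, S.a φ (i + 1) x ≠ c) → (∀ x < m, S.a ψ (i + 1) x ≠ c) →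
    (∀ x < m, S.a φ (i + 1) x ≠ c') → (∀ x < m, S.a ψ (i + 1) x ≠ c') →
    c ≠ c' → S.W k φ i c ≠ S.W k ψ i c'
  | 0, c, c', hi, hφ, hψ, hc, hc', h1, h2, h3, h4, h => by
    have r1 := kap_rng (S := S) hi (hφ 1 (by omega) (by omega)) hc h1
    have r2 := kap_rng (S := S) hi (hψ 1 (by omega) (by omega)) hc' h4
    have := kap_neq (S := S) hR hi (hφ 1 (by omega) (by omega)) (hψ 1 (by omega) (by omega))
      h1 h2 h3 h4 h
    simp only [W]
    simp only [Nat.zero_add] at r1 r2 this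
    omega
  | i + 1, c, c', hi, hφ, hψ, hc, hc', h1, h2, h3, h4, h => by
    have r1 : m ≤ kap m 0 (S.a φ (i + 2)) c ∧ kap m 0 (S.a φ (i + 2)) c < n :=
      kap_rng (S := S) hi (hφ (i + 2) (by omega) (by omega)) hc h1
    have r2 : m ≤ kap m 0 (S.a ψ (i + 2)) c' ∧ kap m 0 (S.a ψ (i + 2)) c' < n :=
      kap_rng (S := S) hi (hψ (i + 2) (by omega) (by omega)) hc' h4
    have hk : kap m 0 (S.a φ (i + 2)) c ≠ kap m 0 (S.a ψ (i + 2)) c' :=
      kap_neq (S := S) hR hi (hφ (i + 2) (by omega) (by omega))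
      (hψ (i + 2) (by omega) (by omega)) h1 h2 h3 h4 h
    have lo : ∀ (χ : X) (t : ℕ), (∀ j, 1 ≤ j → j ≤ i + 1 + 1 → S.st χ j = none) → t < m →
        S.W k χ i (S.a χ (i + 2) t) < m + k + i * k := by
      intro χ t hχ ht
      exact W_lt hn i _ (by omega) (fun j h1 h2 => hχ j h1 (by omega))
        (S.a_lt χ _ _ (by omega) ht)
        (fun x hx => S.noneP χ (i + 1) (hχ (i + 1) (by omega) (by omega)) (i + 2)
          (by unfold nb; omega) x hx _ ht (Or.inl (by omega)))
    rw [W, W]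
    split_ifs with ha hb hb
    · refine W_ne hn hR i _ _ (by omega) (fun j h1 h2 => hφ j h1 (by omega))
        (fun j h1 h2 => hψ j h1 (by omega)) (S.a_lt φ _ _ (by omega) (by omega))
        (S.a_lt ψ _ _ (by omega) (by omega)) ?_ ?_ ?_ ?_ ?_
      · intro x hx
        exact S.noneP φ (i + 1) (hφ (i + 1) (by omega) (by omega)) (i + 2) (by unfold nb; omega)
          x hx _ (by omega) (Or.inl (by omega))
      · intro x hx
        exact S.cross ψ φ (S.symm _ _ hR) (i + 1) (i + 2) (by unfold nb; omega) x hx _ (by omega)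
          (Or.inl (by omega))
      · intro x hx
        exact S.cross φ ψ hR (i + 1) (i + 2) (by unfold nb; omega) x hx _ (by omega)
          (Or.inl (by omega))
      · intro x hx
        exact S.noneP ψ (i + 1) (hψ (i + 1) (by omega) (by omega)) (i + 2) (by unfold nb; omega)
          x hx _ (by omega) (Or.inl (by omega))
      · exact S.cross φ ψ hR (i + 2) (i + 2) (by unfold nb; omega) _ (by omega) _ (by omega)
          (Or.inr (by omega))
    · have := lo φ (kap m 0 (S.a φ (i + 2)) c - m) hφ (by omega)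
      omega
    · have := lo ψ (kap m 0 (S.a ψ (i + 2)) c' - m) hψ (by omega)
      omega
    · omega

/-- Comparison of a walk which starts at the fibre `J+2` with a walk which starts further up. -/
theorem W_unroll (hn : n = 2 * m + k) {φ ψ : X} (hR : R φ ψ) {J e : ℕ}
    (hJ : J + 2 ≤ N)
    (hφ : ∀ j, 1 ≤ j → j ≤ J + 1 → S.st φ j = none) (he : S.st φ (J + 2) = some e)
    (hψ : ∀ j, 1 ≤ j → j ≤ J + 2 → S.st ψ j = none) :
    ∀ (l c' : ℕ), S.W k φ J e ≠ S.W k ψ (J + 1 + l) c' := by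
  obtain ⟨x0, hx0, hx0e⟩ := S.some_mem φ (J + 2) e hJ he
  have hen : e < n := hx0e ▸ S.a_lt φ _ _ hJ hx0
  have h1 : ∀ x < m, S.a φ (J + 1) x ≠ e := by
    intro x hx
    rw [← hx0e]
    exact S.noneP φ (J + 1) (hφ (J + 1) (by omega) (by omega)) (J + 2) (by unfold nb; omega)
      x hx _ hx0 (Or.inl (by omega))
  have hlt := W_lt (S := S) hn J e (by omega) hφ hen h1
  intro l
  induction l with
  | zero =>
    intro c'
    rw [Nat.add_zero, W]
    split_ifs with h
    · refine W_ne hn hR J _ _ (by omega) hφ (fun j h1 h2 => hψ j h1 (by omega)) hen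
        (S.a_lt ψ _ _ (by omega) (by omega)) h1 ?_ ?_ ?_ ?_
      · intro x hx
        exact S.someP φ ψ hR (J + 2) e he (J + 1) (by unfold nb; omega) x hx
      · intro x hx
        exact S.cross φ ψ hR (J + 1) (J + 2) (by unfold nb; omega) x hx _ (by omega)
          (Or.inl (by omega))
      · intro x hx
        exact S.noneP ψ (J + 1) (hψ (J + 1) (by omega) (by omega)) (J + 2) (by unfold nb; omega)
          x hx _ (by omega) (Or.inl (by omega))
      · exact (S.someP φ ψ hR (J + 2) e he (J + 2) (by unfold nb; omega) _ (by omega)).symm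
    · omega
  | succ l ih =>
    intro c'
    have : J + 1 + (l + 1) = (J + 1 + l) + 1 := by omega
    rw [this, W]
    split_ifs with h
    · exact ih _
    · have h2 : J * k ≤ (J + 1 + l) * k := Nat.mul_le_mul_right k (by omega)
      omega

/-- Drift: if the fibres `1, …, N-1` are all proper, `N = 2d` and `(d-1) k < m`, then the fibres
`1` and `N-1` have a common colour. -/
theorem exists_common (hn : n = 2 * m + k) {φ : X} {d : ℕ} (hN : N = 2 * d) (hd : 1 ≤ d)
    (hk : (d - 1) * k < m) (hst : ∀ j, 1 ≤ j → j ≤ N - 1 → S.st φ j = none) :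
    ∃ s, (∃ x < m, S.a φ 1 x = s) ∧ (∃ y < m, S.a φ (N - 1) y = s) := by
  classical
  let A : ℕ → Finset ℕ := fun i => (Finset.range m).image (S.a φ i)
  have hA : ∀ i, 1 ≤ i → i ≤ N - 1 → (A i).card = m := by
    intro i h1 h2
    have : Set.InjOn (S.a φ i) (Finset.range m : Set ℕ) := by
      intro x hx y hy hxy
      by_contra hne
      exact S.noneP φ i (hst i h1 h2) i (by unfold nb; omega) x (by simpa using hx) y
        (by simpa using hy) (Or.inr hne) hxy
    simp only [A]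
    rw [Finset.card_image_of_injOn this, Finset.card_range]
  have hsub : ∀ i, 1 ≤ i → i ≤ N - 1 → A i ⊆ Finset.range n := by
    intro i h1 h2 v hv
    simp only [A, Finset.mem_image, Finset.mem_range] at hv ⊢
    obtain ⟨x, hx, rfl⟩ := hv
    exact S.a_lt φ i x (by omega) hx
  have hdis : ∀ i, 1 ≤ i → i + 1 ≤ N - 1 → Disjoint (A i) (A (i + 1)) := by
    intro i h1 h2
    rw [Finset.disjoint_left]
    intro v hv hv'
    simp only [A, Finset.mem_image, Finset.mem_range] at hv hv'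
    obtain ⟨x, hx, rfl⟩ := hv
    obtain ⟨y, hy, hxy⟩ := hv'
    exact S.noneP φ i (hst i h1 (by omega)) (i + 1) (by unfold nb; omega) x hx y hy
      (Or.inl (by omega)) hxy.symm
  have step : ∀ i, 1 ≤ i → i + 2 ≤ N - 1 → (A i \ A (i + 2)).card ≤ k := by
    intro i h1 h2
    have h3 : A i ∪ A (i + 2) ⊆ Finset.range n \ A (i + 1) := by
      intro v hv
      rw [Finset.mem_sdiff]
      rcases Finset.mem_union.1 hv with hv | hv
      · exact ⟨hsub i h1 (by omega) hv,
          Finset.disjoint_left.1 (hdis i h1 (by omega)) hv⟩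
      · exact ⟨hsub (i + 2) (by omega) (by omega) hv,
          Finset.disjoint_right.1 (hdis (i + 1) (by omega) (by omega)) hv⟩
    have h4 := Finset.card_le_card h3
    rw [Finset.card_sdiff_of_subset (hsub (i + 1) (by omega) (by omega)), Finset.card_range,
      hA (i + 1) (by omega) (by omega)] at h4
    have h5 : (A i ∪ A (i + 2)).card = (A i \ A (i + 2)).card + (A (i + 2)).card := by
      rw [← Finset.card_union_of_disjoint (Finset.sdiff_disjoint), Finset.sdiff_union_self_eq_union]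
    rw [hA (i + 2) (by omega) h2] at h5
    omega
  have drift : ∀ l, 2 * l + 1 ≤ N - 1 → (A 1 \ A (2 * l + 1)).card ≤ l * k := by
    intro l
    induction l with
    | zero => intro _; simp
    | succ l ih =>
      intro hl
      have h1 := ih (by omega)
      have h2 := step (2 * l + 1) (by omega) (by omega)
      have h3 : A 1 \ A (2 * (l + 1) + 1) ⊆ (A 1 \ A (2 * l + 1)) ∪ (A (2 * l + 1) \ A (2 * l + 1 + 2)) := by
        intro v hv
        rw [Finset.mem_sdiff] at hv
        rw [Finset.mem_union, Finset.mem_sdiff, Finset.mem_sdiff]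
        have : 2 * (l + 1) + 1 = 2 * l + 1 + 2 := by ring
        rw [this] at hv
        by_cases h : v ∈ A (2 * l + 1)
        · exact Or.inr ⟨h, hv.2⟩
        · exact Or.inl ⟨hv.1, h⟩
      have h4 := (Finset.card_le_card h3).trans (Finset.card_union_le _ _)
      have h5 : (l + 1) * k = l * k + k := by ring
      omega
  have hfin := drift (d - 1) (by omega)
  have e1 : 2 * (d - 1) + 1 = N - 1 := by omega
  rw [e1] at hfin
  have : ∃ s ∈ A 1, s ∈ A (N - 1) := by
    by_contra hcon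
    push Not at hcon
    have : A 1 \ A (N - 1) = A 1 := by
      rw [Finset.sdiff_eq_self_iff_disjoint, Finset.disjoint_left]
      exact hcon
    rw [this, hA 1 (by omega) (by omega)] at hfin
    omega
  obtain ⟨s, h1, h2⟩ := this
  simp only [A, Finset.mem_image, Finset.mem_range] at h1 h2
  exact ⟨s, h1, h2⟩

open Classical in
/-- A common colour of the fibres `1` and `N-1`, if there is one. -/
noncomputable def com (S : Sys X R N m n) (φ : X) : ℕ :=
  if h : ∃ s, (∃ x < m, S.a φ 1 x = s) ∧ (∃ y < m, S.a φ (N - 1) y = s) then h.choose else 0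

/-- The colour at the fibre `0` used for the maps whose only improper fibre is the last one. -/
noncomputable def g (S : Sys X R N m n) (φ : X) (h : ℕ) : ℕ :=
  if kap m 0 (S.a φ 0) h = n - 1 then S.com φ else h

/-- The token for these maps. -/
noncomputable def top (S : Sys X R N m n) (k : ℕ) (φ : X) (h : ℕ) : ℕ :=
  if kap m 0 (S.a φ 0) (S.g φ h) < 2 * m then
    S.W k φ (N - 3) (S.a φ (N - 1) (kap m 0 (S.a φ 0) (S.g φ h) - m))
  else (m + k) + (N - 3) * k + (kap m 0 (S.a φ 0) (S.g φ h) - 2 * m)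

/-- The hypothesis of the last class: only the last fibre is improper, with colour `h`. -/
def Last (S : Sys X R N m n) (φ : X) (h : ℕ) : Prop :=
  (∀ j, j ≤ N - 1 → S.st φ j = none) ∧ S.st φ N = some h

theorem Last.facts {φ : X} {h d : ℕ} (hL : S.Last φ h) (hn : n = 2 * m + k) (hN : N = 2 * d)
    (hd : 2 ≤ d) (hk : (d - 1) * k < m) :
    (∀ x < m, S.a φ 0 x ≠ h) ∧ h < n ∧ (∃ x < m, S.a φ 1 x = S.com φ) ∧
      (∃ y < m, S.a φ (N - 1) y = S.com φ) ∧ (∀ x < m, S.a φ 0 x ≠ S.com φ) ∧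
      S.com φ < n ∧ S.com φ ≠ h ∧ (∀ x < m, S.a φ 0 x ≠ S.g φ h) ∧ S.g φ h < n ∧
      m ≤ kap m 0 (S.a φ 0) (S.g φ h) ∧ kap m 0 (S.a φ 0) (S.g φ h) < n - 1 := by
  obtain ⟨h1, h2⟩ := hL
  obtain ⟨x0, hx0, hx0e⟩ := S.some_mem φ N h le_rfl h2
  have hcom : (∃ x < m, S.a φ 1 x = S.com φ) ∧ (∃ y < m, S.a φ (N - 1) y = S.com φ) := by
    have hex := S.exists_common hn hN (by omega) hk (fun j _ hj => h1 j hj)
    unfold com
    rw [dif_pos hex]
    exact hex.choose_spec
  have a0 : ∀ x < m, S.a φ 0 x ≠ h := by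
    intro x hx
    rw [← hx0e]
    exact S.noneP φ 0 (h1 0 (by omega)) N (by unfold nb; omega) x hx _ hx0 (Or.inl (by omega))
  have hh : h < n := hx0e ▸ S.a_lt φ _ _ le_rfl hx0
  have a1 : ∀ x < m, S.a φ 0 x ≠ S.com φ := by
    intro x hx
    obtain ⟨y, hy, hye⟩ := hcom.1
    rw [← hye]
    exact S.noneP φ 0 (h1 0 (by omega)) 1 (by unfold nb; omega) x hx y hy (Or.inl (by omega))
  have hc : S.com φ < n := by
    obtain ⟨y, hy, hye⟩ := hcom.1
    rw [← hye]
    exact S.a_lt φ _ _ (by omega) hy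
  have hne : S.com φ ≠ h := by
    obtain ⟨y, hy, hye⟩ := hcom.2
    rw [← hye, ← hx0e]
    exact S.noneP φ (N - 1) (h1 _ le_rfl) N (by unfold nb; omega) y hy _ hx0 (Or.inl (by omega))
  have h0 : S.st φ 0 = none := h1 0 (by omega)
  have r1 := kap_rng (S := S) (Nat.zero_le N) h0 hh a0
  have r2 := kap_rng (S := S) (Nat.zero_le N) h0 hc a1
  refine ⟨a0, hh, hcom.1, hcom.2, a1, hc, hne, ?_, ?_, ?_, ?_⟩
  · unfold g; split_ifs <;> assumption
  · unfold g; split_ifs <;> assumption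
  · unfold g; split_ifs
    · exact r2.1
    · exact r1.1
  · unfold g
    split_ifs with hif
    · have : kap m 0 (S.a φ 0) (S.com φ) ≠ kap m 0 (S.a φ 0) h := by
        refine kap_ne m 0 _ _ _ _ ?_ ?_ ?_ a1 a1 a0 a0 hne <;>
        exact fun x hx y hy hxy => S.noneP φ 0 h0 0 (by unfold nb; omega) x hx y hy (Or.inr hxy)
      omega
    · omega

theorem top_lt {φ : X} {h d : ℕ} (hL : S.Last φ h) (hn : n = 2 * m + k) (hN : N = 2 * d)
    (hd : 2 ≤ d) (hk : (d - 1) * k < m) (hk1 : 1 ≤ k) :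
    S.top k φ h < m + k + (N - 3) * k + (k - 1) := by
  have hf := hL.facts hn hN hd hk
  have hr1 := hf.2.2.2.2.2.2.2.2.2.1
  have hr2 := hf.2.2.2.2.2.2.2.2.2.2
  unfold top
  split_ifs with hlt
  · have e1 : N - 3 + 1 = N - 2 := by omega
    have := W_lt (S := S) hn (N - 3)
      (S.a φ (N - 1) (kap m 0 (S.a φ 0) (S.g φ h) - m)) (by omega)
      (fun j _ h2 => hL.1 j (by omega)) (S.a_lt φ _ _ (by omega) (by omega))
      (fun x hx => S.noneP φ (N - 3 + 1) (hL.1 _ (by omega)) (N - 1) (by unfold nb; omega)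
        x hx _ (by omega) (Or.inl (by omega)))
    omega
  · omega

theorem top_ne {φ ψ : X} (hR : R φ ψ) {h h' d : ℕ} (hL : S.Last φ h) (hL' : S.Last ψ h')
    (hn : n = 2 * m + k) (hN : N = 2 * d) (hd : 2 ≤ d) (hk : (d - 1) * k < m) :
    S.top k φ h ≠ S.top k ψ h' := by
  obtain ⟨a0, hh, ⟨x1, hx1, hx1e⟩, ⟨y1, hy1, hy1e⟩, a1, hc, hne, ag, hg, hr1, hr2⟩ :=
    hL.facts hn hN hd hk
  obtain ⟨a0', hh', ⟨x1', hx1', hx1e'⟩, ⟨y1', hy1', hy1e'⟩, a1', hc', hne', ag', hg', hr1', hr2'⟩ :=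
    hL'.facts hn hN hd hk
  have hR' := S.symm _ _ hR
  have b1 : ∀ x < m, S.a ψ 0 x ≠ h := fun x hx =>
    S.someP φ ψ hR N h hL.2 0 (by unfold nb; omega) x hx
  have b2 : ∀ x < m, S.a φ 0 x ≠ h' := fun x hx =>
    S.someP ψ φ hR' N h' hL'.2 0 (by unfold nb; omega) x hx
  have b3 : ∀ x < m, S.a ψ 0 x ≠ S.com φ := fun x hx => by
    rw [← hx1e]
    exact S.cross ψ φ hR' 0 1 (by unfold nb; omega) x hx _ hx1 (Or.inl (by omega))
  have b4 : ∀ x < m, S.a φ 0 x ≠ S.com ψ := fun x hx => by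
    rw [← hx1e']
    exact S.cross φ ψ hR 0 1 (by unfold nb; omega) x hx _ hx1' (Or.inl (by omega))
  have hhh : h ≠ h' := by
    obtain ⟨x0, hx0, hx0e⟩ := S.some_mem ψ N h' le_rfl hL'.2
    rw [← hx0e]
    exact (S.someP φ ψ hR N h hL.2 N (by unfold nb; omega) x0 hx0).symm
  have hcc : S.com φ ≠ h' := by
    rw [← hy1e]
    exact S.someP ψ φ hR' N h' hL'.2 (N - 1) (by unfold nb; omega) y1 hy1
  have hcc' : S.com ψ ≠ h := by
    rw [← hy1e']
    exact S.someP φ ψ hR N h hL.2 (N - 1) (by unfold nb; omega) y1' hy1'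
  have z := hL.1 0 (by omega)
  have z' := hL'.1 0 (by omega)
  have hkne : kap m 0 (S.a φ 0) h ≠ kap m 0 (S.a ψ 0) h' :=
    kap_neq (S := S) hR (Nat.zero_le N) z z' a0 b1 b2 a0' hhh
  have hG : kap m 0 (S.a φ 0) (S.g φ h) ≠ kap m 0 (S.a ψ 0) (S.g ψ h') := by
    by_cases c1 : kap m 0 (S.a φ 0) h = n - 1
    · by_cases c2 : kap m 0 (S.a ψ 0) h' = n - 1
      · omega
      · have e1 : S.g φ h = S.com φ := by unfold g; rw [if_pos c1]
        have e2 : S.g ψ h' = h' := by unfold g; rw [if_neg c2]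
        rw [e1, e2]
        exact kap_neq (S := S) hR (Nat.zero_le N) z z' a1 b3 b2 a0' hcc
    · by_cases c2 : kap m 0 (S.a ψ 0) h' = n - 1
      · have e1 : S.g φ h = h := by unfold g; rw [if_neg c1]
        have e2 : S.g ψ h' = S.com ψ := by unfold g; rw [if_pos c2]
        rw [e1, e2]
        exact kap_neq (S := S) hR (Nat.zero_le N) z z' a0 b1 b4 a1' hcc'.symm
      · have e1 : S.g φ h = h := by unfold g; rw [if_neg c1]
        have e2 : S.g ψ h' = h' := by unfold g; rw [if_neg c2]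
        rw [e1, e2]
        exact hkne
  have lo : ∀ (χ : X) (u : ℕ) (t : ℕ), S.Last χ u → t < m →
      S.W k χ (N - 3) (S.a χ (N - 1) t) < m + k + (N - 3) * k := by
    intro χ u t hχ ht
    exact W_lt (S := S) hn (N - 3) _ (by omega)
      (fun j _ h2 => hχ.1 j (by omega)) (S.a_lt χ _ _ (by omega) ht)
      (fun x hx => S.noneP χ (N - 3 + 1) (hχ.1 _ (by omega)) (N - 1) (by unfold nb; omega)
        x hx _ ht (Or.inl (by omega)))
  unfold top
  split_ifs with p1 p2 p2
  · refine W_ne (S := S) hn hR (N - 3) _ _ (by omega) (fun j _ h2 => hL.1 j (by omega))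
      (fun j _ h2 => hL'.1 j (by omega)) (S.a_lt φ _ _ (by omega) (by omega))
      (S.a_lt ψ _ _ (by omega) (by omega)) ?_ ?_ ?_ ?_ ?_
    · intro x hx
      exact S.noneP φ (N - 3 + 1) (hL.1 _ (by omega)) (N - 1) (by unfold nb; omega)
        x hx _ (by omega) (Or.inl (by omega))
    · intro x hx
      exact S.cross ψ φ hR' (N - 3 + 1) (N - 1) (by unfold nb; omega) x hx _ (by omega)
        (Or.inl (by omega))
    · intro x hx
      exact S.cross φ ψ hR (N - 3 + 1) (N - 1) (by unfold nb; omega) x hx _ (by omega)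
        (Or.inl (by omega))
    · intro x hx
      exact S.noneP ψ (N - 3 + 1) (hL'.1 _ (by omega)) (N - 1) (by unfold nb; omega)
        x hx _ (by omega) (Or.inl (by omega))
    · exact S.cross φ ψ hR (N - 1) (N - 1) (by unfold nb; omega) _ (by omega) _ (by omega)
        (Or.inr (by omega))
  · have := lo φ h (kap m 0 (S.a φ 0) (S.g φ h) - m) hL (by omega)
    omega
  · have := lo ψ h' (kap m 0 (S.a ψ 0) (S.g ψ h') - m) hL' (by omega)
    omega
  · omega

/-- Comparison of a walk which starts at a fibre `J + 2 ≤ N - 1` with the last class. -/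
theorem W_top_ne {φ ψ : X} (hR : R φ ψ) {h d J e : ℕ} (hJ : J + 2 ≤ N - 1)
    (hφ : ∀ j, 1 ≤ j → j ≤ J + 1 → S.st φ j = none) (he : S.st φ (J + 2) = some e)
    (hL : S.Last ψ h) (hn : n = 2 * m + k) (hN : N = 2 * d) (hd : 2 ≤ d)
    (hk : (d - 1) * k < m) : S.W k φ J e ≠ S.top k ψ h := by
  have hf := hL.facts hn hN hd hk
  have hr1 := hf.2.2.2.2.2.2.2.2.2.1
  have hr2 := hf.2.2.2.2.2.2.2.2.2.2
  obtain ⟨x0, hx0, hx0e⟩ := S.some_mem φ (J + 2) e (by omega) he
  have hen : e < n := hx0e ▸ S.a_lt φ _ _ (by omega) hx0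
  have h1 : ∀ x < m, S.a φ (J + 1) x ≠ e := by
    intro x hx
    rw [← hx0e]
    exact S.noneP φ (J + 1) (hφ (J + 1) (by omega) (by omega)) (J + 2) (by unfold nb; omega)
      x hx _ hx0 (Or.inl (by omega))
  have hlt := W_lt (S := S) hn J e (by omega) hφ hen h1
  unfold top
  split_ifs with p
  · rcases Nat.lt_or_ge (J + 2) (N - 1) with hlt' | hge
    · obtain ⟨l, hl⟩ : ∃ l, N - 3 = J + 1 + l := ⟨N - 3 - (J + 1), by omega⟩
      rw [hl]
      exact W_unroll (S := S) hn hR (by omega) hφ he (fun j _ h2 => hL.1 j (by omega)) l _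
    · have e1 : N - 3 = J := by omega
      have e2 : N - 1 = J + 2 := by omega
      rw [e1, e2]
      refine W_ne (S := S) hn hR J _ _ (by omega) hφ (fun j _ h2 => hL.1 j (by omega)) hen
        (S.a_lt ψ _ _ (by omega) (by omega)) h1 ?_ ?_ ?_ ?_
      · intro x hx
        exact S.someP φ ψ hR (J + 2) e he (J + 1) (by unfold nb; omega) x hx
      · intro x hx
        exact S.cross φ ψ hR (J + 1) (J + 2) (by unfold nb; omega) x hx _ (by omega)
          (Or.inl (by omega))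
      · intro x hx
        exact S.noneP ψ (J + 1) (hL.1 (J + 1) (by omega)) (J + 2) (by unfold nb; omega)
          x hx _ (by omega) (Or.inl (by omega))
      · exact (S.someP φ ψ hR (J + 2) e he (J + 2) (by unfold nb; omega) _ (by omega)).symm
  · have h2 : J * k ≤ (N - 3) * k := Nat.mul_le_mul_right k (by omega)
    omega

open Classical in
/-- The first improper fibre. -/
noncomputable def jj (S : Sys X R N m n) (φ : X) : ℕ := Nat.find (S.ex φ)

theorem jj_spec (φ : X) : S.jj φ ≤ N ∧ S.st φ (S.jj φ) ≠ none := by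
  classical
  exact Nat.find_spec (S.ex φ)

theorem jj_min (φ : X) {i : ℕ} (hi : i < S.jj φ) : S.st φ i = none := by
  classical
  have h1 := Nat.find_min (S.ex φ) hi
  have h2 := (S.jj_spec φ).1
  by_contra h
  exact h1 ⟨by omega, h⟩

/-- The colour at the first improper fibre. -/
noncomputable def ee (S : Sys X R N m n) (φ : X) : ℕ := (S.st φ (S.jj φ)).getD 0

theorem ee_spec (φ : X) : S.st φ (S.jj φ) = some (S.ee φ) := by
  have := (S.jj_spec φ).2
  unfold ee
  cases h : S.st φ (S.jj φ) with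
  | none => exact absurd h this
  | some e => rfl

/-- The token of a map which is proper on the fibres `0` and `1`. -/
noncomputable def qq (S : Sys X R N m n) (k : ℕ) (φ : X) : ℕ :=
  if S.jj φ < N then S.W k φ (S.jj φ - 2) (S.ee φ) else S.top k φ (S.ee φ)

/-- The colour at the position `q` of the clique formed by the fibres `0` and `1`. -/
def pos (S : Sys X R N m n) (φ : X) (q : ℕ) : ℕ := if q < m then S.a φ 0 q else S.a φ 1 (q - m)

/-- The colouring. -/
noncomputable def F (S : Sys X R N m n) (k : ℕ) (φ : X) : ℕ :=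
  if S.jj φ ≤ 1 then S.ee φ else S.pos φ (S.qq k φ)

theorem last_of (hN : 1 ≤ N) (φ : X) (h : ¬ S.jj φ < N) : S.Last φ (S.ee φ) := by
  have h1 := (S.jj_spec φ).1
  have h2 : S.jj φ = N := by omega
  refine ⟨fun j hj => S.jj_min φ (by omega), ?_⟩
  have := S.ee_spec φ
  rwa [h2] at this

theorem qq_lt {d : ℕ} (hn : n = 2 * m + k) (hN : N = 2 * d) (hd : 2 ≤ d)
    (hk1 : 1 ≤ k) (hb : (N - 1) * k ≤ m + 1) (φ : X) (hj : 2 ≤ S.jj φ) : S.qq k φ < 2 * m := by
  have hk : (d - 1) * k < m := by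
    have h1 : (N - 1) * k = (d - 1) * k + d * k := by
      rw [← Nat.add_mul]; congr 1; omega
    have h2 : 2 ≤ d * k := by nlinarith
    omega
  have e1 : (N - 1) * k = (N - 3) * k + 2 * k := by
    rw [← Nat.add_mul]; congr 1; omega
  unfold qq
  split_ifs with h
  · have hs := S.ee_spec φ
    obtain ⟨x0, hx0, hx0e⟩ := S.some_mem φ _ _ (S.jj_spec φ).1 hs
    have e2 : S.jj φ - 2 + 1 = S.jj φ - 1 := by omega
    have := W_lt (S := S) hn (S.jj φ - 2) (S.ee φ) (by omega)
      (fun j _ h2 => S.jj_min φ (by omega)) (hx0e ▸ S.a_lt φ _ _ (S.jj_spec φ).1 hx0)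
      (fun x hx => by
        have h3 := S.noneP φ (S.jj φ - 2 + 1) (S.jj_min φ (by omega)) (S.jj φ)
          (by unfold nb; omega) x hx x0 hx0 (Or.inl (by omega))
        rwa [hx0e] at h3)
    have h4 : (S.jj φ - 2) * k ≤ (N - 3) * k := Nat.mul_le_mul_right k (by omega)
    omega
  · have := top_lt (S := S) (last_of (S := S) (by omega) φ h) hn hN hd hk hk1
    omega

theorem qq_ne {d : ℕ} (hn : n = 2 * m + k) (hN : N = 2 * d) (hd : 2 ≤ d)
    (hk1 : 1 ≤ k) (hb : (N - 1) * k ≤ m + 1) {φ ψ : X} (hR : R φ ψ) (hj : 2 ≤ S.jj φ)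
    (hle : S.jj φ ≤ S.jj ψ) : S.qq k φ ≠ S.qq k ψ := by
  have hk : (d - 1) * k < m := by
    have h1 : (N - 1) * k = (d - 1) * k + d * k := by
      rw [← Nat.add_mul]; congr 1; omega
    have h2 : 2 ≤ d * k := by nlinarith
    omega
  have jN := (S.jj_spec φ).1
  have jN' := (S.jj_spec ψ).1
  obtain ⟨J, hJ⟩ : ∃ J, S.jj φ = J + 2 := ⟨S.jj φ - 2, by omega⟩
  have hs : S.st φ (J + 2) = some (S.ee φ) := hJ ▸ S.ee_spec φ
  have hφ : ∀ j, 1 ≤ j → j ≤ J + 1 → S.st φ j = none := fun j _ h => S.jj_min φ (by omega)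
  obtain ⟨x0, hx0, hx0e⟩ := S.some_mem φ _ _ jN (S.ee_spec φ)
  have hen : S.ee φ < n := hx0e ▸ S.a_lt φ _ _ jN hx0
  rw [hJ] at hx0e
  unfold qq
  split_ifs with h1 h2 h2
  · rcases Nat.eq_or_lt_of_le hle with heq | hlt
    · -- same class
      have hs' : S.st ψ (J + 2) = some (S.ee ψ) := by
        have := S.ee_spec ψ
        rwa [← heq, hJ] at this
      obtain ⟨y0, hy0, hy0e⟩ := S.some_mem ψ _ _ (by omega) hs'
      have hen' : S.ee ψ < n := hy0e ▸ S.a_lt ψ _ _ (by omega) hy0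
      have hψ : ∀ j, 1 ≤ j → j ≤ J + 1 → S.st ψ j = none := fun j _ h => S.jj_min ψ (by omega)
      rw [← heq, hJ]
      refine W_ne (S := S) hn hR J _ _ (by omega) hφ hψ hen hen' ?_ ?_ ?_ ?_ ?_
      · intro x hx
        rw [← hx0e]
        exact S.noneP φ (J + 1) (hφ _ (by omega) (by omega)) (J + 2) (by unfold nb; omega)
          x hx _ hx0 (Or.inl (by omega))
      · intro x hx
        exact S.someP φ ψ hR (J + 2) _ hs (J + 1) (by unfold nb; omega) x hx
      · intro x hx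
        exact S.someP ψ φ (S.symm _ _ hR) (J + 2) _ hs' (J + 1) (by unfold nb; omega) x hx
      · intro x hx
        rw [← hy0e]
        exact S.noneP ψ (J + 1) (hψ _ (by omega) (by omega)) (J + 2) (by unfold nb; omega)
          x hx _ hy0 (Or.inl (by omega))
      · rw [← hy0e]
        exact (S.someP φ ψ hR (J + 2) _ hs (J + 2) (by unfold nb; omega) y0 hy0).symm
    · obtain ⟨l, hl⟩ : ∃ l, S.jj ψ - 2 = J + 1 + l := ⟨S.jj ψ - 2 - (J + 1), by omega⟩
      rw [hl, hJ]
      exact W_unroll (S := S) hn hR (by omega) hφ hs (fun j _ h => S.jj_min ψ (by omega)) l _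
  · rw [hJ]
    exact W_top_ne (S := S) hR (by omega) hφ hs (last_of (S := S) (by omega) ψ h2) hn hN hd hk
  · omega
  · exact top_ne (S := S) hR (last_of (S := S) (by omega) φ h1) (last_of (S := S) (by omega) ψ h2)
      hn hN hd hk

theorem F_ne_aux {d : ℕ} (hn : n = 2 * m + k) (hN : N = 2 * d) (hd : 2 ≤ d)
    (hk1 : 1 ≤ k) (hb : (N - 1) * k ≤ m + 1) {φ ψ : X} (hR : R φ ψ)
    (hle : S.jj φ ≤ S.jj ψ) : S.F k φ ≠ S.F k ψ := by
  have jN := (S.jj_spec φ).1
  have jN' := (S.jj_spec ψ).1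
  unfold F
  split_ifs with h1 h2 h2
  · obtain ⟨y0, hy0, hy0e⟩ := S.some_mem ψ _ _ jN' (S.ee_spec ψ)
    rw [← hy0e]
    exact (S.someP φ ψ hR _ _ (S.ee_spec φ) (S.jj ψ) (by unfold nb; omega) y0 hy0).symm
  · have hq := qq_lt (S := S) hn hN hd hk1 hb ψ (by omega)
    unfold pos
    split_ifs with h3
    · exact (S.someP φ ψ hR _ _ (S.ee_spec φ) 0 (by unfold nb; omega) _ h3).symm
    · exact (S.someP φ ψ hR _ _ (S.ee_spec φ) 1 (by unfold nb; omega) _ (by omega)).symm
  · omega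
  · have hq := qq_lt (S := S) hn hN hd hk1 hb φ (by omega)
    have hq' := qq_lt (S := S) hn hN hd hk1 hb ψ (by omega)
    have hne := qq_ne (S := S) hn hN hd hk1 hb hR (by omega) hle
    unfold pos
    split_ifs with h3 h4 h4
    · exact S.cross φ ψ hR 0 0 (by unfold nb; omega) _ h3 _ h4 (Or.inr hne)
    · exact S.cross φ ψ hR 0 1 (by unfold nb; omega) _ h3 _ (by omega) (Or.inl (by omega))
    · exact S.cross φ ψ hR 1 0 (by unfold nb; omega) _ (by omega) _ h4 (Or.inl (by omega))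
    · exact S.cross φ ψ hR 1 1 (by unfold nb; omega) _ (by omega) _ (by omega)
        (Or.inr (by omega))

theorem F_lt {d : ℕ} (hn : n = 2 * m + k) (hN : N = 2 * d) (hd : 2 ≤ d)
    (hk1 : 1 ≤ k) (hb : (N - 1) * k ≤ m + 1) (φ : X) : S.F k φ < n := by
  unfold F
  split_ifs with h1
  · obtain ⟨x0, hx0, hx0e⟩ := S.some_mem φ _ _ (S.jj_spec φ).1 (S.ee_spec φ)
    exact hx0e ▸ S.a_lt φ _ _ (S.jj_spec φ).1 hx0
  · have hq := qq_lt (S := S) hn hN hd hk1 hb φ (by omega)
    unfold pos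
    split_ifs with h3
    · exact S.a_lt φ _ _ (by omega) h3
    · exact S.a_lt φ _ _ (by omega) (by omega)

/-- The abstract colouring theorem. -/
theorem exists_colouring (S : Sys X R N m n) {k d : ℕ} (hn : n = 2 * m + k) (hN : N = 2 * d)
    (hd : 2 ≤ d) (hk1 : 1 ≤ k) (hb : (N - 1) * k ≤ m + 1) :
    ∃ F : X → ℕ, (∀ φ, F φ < n) ∧ ∀ φ ψ, R φ ψ → F φ ≠ F ψ := by
  refine ⟨S.F k, fun φ => F_lt hn hN hd hk1 hb φ, fun φ ψ hR => ?_⟩
  rcases Nat.le_total (S.jj φ) (S.jj ψ) with h | h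
  · exact F_ne_aux hn hN hd hk1 hb hR h
  · exact (F_ne_aux hn hN hd hk1 hb (S.symm _ _ hR) h).symm

end Sys

end Pool.Agent.K6.H97.Tardif
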